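import Pool.Agent.helper86.BK.Spec2
import Pool.Agent.helper86.PrimesDyadic

/-!
# PR2: primes, dyadic blocks and the maximal form
-/

set_option autoImplicit false

namespace Pool.Agent.BK

open Filter

theorem PR2_mono (Q Q' : Set ℕ) (h : Q ⊆ Q') (a : ℕ → ℤ) (N : ℕ) : cov Q a N ≤ cov Q' a N := by
  unfold cov
  refine Set.ncard_le_ncard ?_ ?_
  · rintro n ⟨h1, h2, q, hq, h3⟩
    exact ⟨h1, h2, q, h hq, h3⟩
  · refine (Set.finite_Icc 1 N).subset ?_
    rintro n ⟨h1, h2, -⟩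
    exact ⟨h1, h2⟩

theorem PR2_coe (α : ℝ) (N : ℕ) :
    ((Pool.Agent.helper86.dyadicPrimes ((N : ℝ) ^ α) : Finset ℕ) : Set ℕ) = dyP α N := by
  ext p
  rw [Finset.mem_coe, Pool.Agent.helper86.mem_dyadicPrimes]
  rfl

/-- a constant is eventually smaller than a positive power -/
theorem PR2_ev (K : ℝ) {s : ℝ} (hs : 0 < s) : ∀ᶠ N : ℕ in atTop, K ≤ (N : ℝ) ^ s :=
  ((tendsto_rpow_atTop hs).comp tendsto_natCast_atTop_atTop).eventually_ge_atTop K

theorem PR2_primes {α δ : ℝ} (hα : 0 < α) (h0 : 0 < δ) (h1 : δ < 1) :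
    ∀ᶠ N : ℕ in atTop, ((N : ℝ) ^ α) ^ (1 - δ) ≤
      (Pool.Agent.helper86.dyadicPrimes ((N : ℝ) ^ α)).card := by
  have ht : Tendsto (fun N : ℕ => (N : ℝ) ^ α) atTop atTop :=
    (tendsto_rpow_atTop hα).comp tendsto_natCast_atTop_atTop
  exact ht.eventually (Pool.Agent.helper86.dyadicPrimes_ge h0 h1)

theorem PR2_log {s : ℝ} (hs : 0 < s) : ∀ᶠ N : ℕ in atTop,
    ((Nat.log 2 N + 1 : ℕ) : ℝ) ≤ (N : ℝ) ^ s := by
  have h1 : ∀ᶠ x : ℝ in atTop, ‖Real.log x‖ ≤ (1 / 4 : ℝ) * ‖x ^ s‖ :=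
    (isLittleO_log_rpow_atTop hs).def (by norm_num)
  have h2 : ∀ᶠ N : ℕ in atTop, ‖Real.log (N : ℝ)‖ ≤ (1 / 4 : ℝ) * ‖(N : ℝ) ^ s‖ :=
    tendsto_natCast_atTop_atTop.eventually h1
  filter_upwards [h2, PR2_ev 2 hs, eventually_ge_atTop 1] with N h3 h4 h5
  have h6 : (1 : ℝ) ≤ N := by exact_mod_cast h5
  have h7 : 0 ≤ Real.log N := Real.log_nonneg h6
  rw [Real.norm_of_nonneg h7, Real.norm_of_nonneg (by positivity)] at h3
  have h8 : ((Nat.log 2 N : ℕ) : ℝ) ≤ 2 * Real.log N := by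
    have h9 : ((2 : ℕ) ^ Nat.log 2 N) ≤ N := Nat.pow_log_le_self 2 (by omega)
    have h10 : ((2 : ℝ) ^ Nat.log 2 N) ≤ N := by exact_mod_cast h9
    have h11 := Real.log_le_log (by positivity) h10
    rw [Real.log_pow] at h11
    have h12 : (1 / 2 : ℝ) ≤ Real.log 2 := by
      have := Real.log_two_gt_d9
      linarith
    have h13 : (0 : ℝ) ≤ (Nat.log 2 N : ℕ) := Nat.cast_nonneg _
    nlinarith
  push_cast
  linarith

theorem PR2_a (c : ℝ) (hc0 : 0 ≤ c) (hc1 : c < 1) (h : Max c) : PNear c := by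
  intro ε hε α₀ hα₀
  have hm : max α₀ 0 < 1 := max_lt hα₀ one_pos
  have hm0 : 0 ≤ max α₀ 0 := le_max_right _ _
  have hm1 : α₀ ≤ max α₀ 0 := le_max_left _ _
  refine ⟨(max α₀ 0 + 1) / 2, by linarith, by linarith, ?_⟩
  set α : ℝ := (max α₀ 0 + 1) / 2 with hα
  have ha0 : 0 < α := by rw [hα]; linarith
  have ha1 : α < 1 := by rw [hα]; linarith
  set δ : ℝ := min (ε / 4) (1 / 2) with hδ
  have hd0 : 0 < δ := by rw [hδ]; exact lt_min (by linarith) (by norm_num)
  have hd1 : δ < 1 := lt_of_le_of_lt (min_le_right _ _) (by norm_num)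
  have hd2 : δ ≤ ε / 4 := min_le_left _ _
  obtain ⟨N₀, hN⟩ := h ((1 + α) / 2) (by linarith) (by linarith) (ε / 4) (by linarith)
  have hev : ∀ᶠ N : ℕ in atTop, ∀ a : ℕ → ℤ, (N : ℝ) ^ (1 - c - ε) ≤ cov (dyP α N) a N := by
    filter_upwards [PR2_primes ha0 hd0 hd1, PR2_ev 2 (show (0 : ℝ) < (1 - α) / 2 by linarith),
      PR2_ev 2 (show (0 : ℝ) < ε / 2 by linarith), eventually_ge_atTop N₀,
      eventually_ge_atTop 1] with N h1 h2 h3 h4 h5 a
    have h6 : (1 : ℝ) ≤ N := by exact_mod_cast h5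
    have h6' : (0 : ℝ) < N := by linarith
    have h7 : (1 : ℝ) ≤ (N : ℝ) ^ α := Real.one_le_rpow h6 ha0.le
    set X : ℕ := ⌈(N : ℝ) ^ α⌉₊ with hX
    have hX1 : (N : ℝ) ^ α ≤ X := Nat.le_ceil _
    have hX2 : (X : ℝ) < (N : ℝ) ^ α + 1 := Nat.ceil_lt_add_one (by positivity)
    have hX3 : (1 : ℝ) ≤ X := le_trans h7 hX1
    have hX4 : 1 ≤ X := by exact_mod_cast hX3
    have hX5 : (X : ℝ) ≤ 2 * (N : ℝ) ^ α := by linarith
    have hX6 : (X : ℝ) ≤ (N : ℝ) ^ ((1 + α) / 2) := by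
      have h8 : (N : ℝ) ^ ((1 + α) / 2) = (N : ℝ) ^ ((1 - α) / 2) * (N : ℝ) ^ α := by
        rw [← Real.rpow_add h6']
        congr 1
        ring
      rw [h8]
      calc (X : ℝ) ≤ 2 * (N : ℝ) ^ α := hX5
        _ ≤ (N : ℝ) ^ ((1 - α) / 2) * (N : ℝ) ^ α := by gcongr
    have h9 := hN N h4 X hX4 hX6 (Pool.Agent.helper86.dyadicPrimes ((N : ℝ) ^ α)) ?_ a
    · rw [PR2_coe] at h9
      refine le_trans ?_ h9
      rw [le_div_iff₀ (by linarith)]
      have h10 : (((N : ℝ) ^ α) ^ (1 - δ)) ^ (1 - c) ≤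
          ((Pool.Agent.helper86.dyadicPrimes ((N : ℝ) ^ α)).card : ℝ) ^ (1 - c) :=
        Real.rpow_le_rpow (by positivity) h1 (by linarith)
      rw [← Real.rpow_mul (by positivity), ← Real.rpow_mul (by positivity)] at h10
      calc (N : ℝ) ^ (1 - c - ε) * X ≤ (N : ℝ) ^ (1 - c - ε) * (2 * (N : ℝ) ^ α) := by gcongr
        _ = 2 * ((N : ℝ) ^ (1 - c - ε) * (N : ℝ) ^ α) := by ring
        _ ≤ (N : ℝ) ^ (ε / 2) * ((N : ℝ) ^ (1 - c - ε) * (N : ℝ) ^ α) := by gcongr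
        _ = (N : ℝ) ^ (ε / 2 + ((1 - c - ε) + α)) := by
            rw [← Real.rpow_add h6', ← Real.rpow_add h6']
        _ ≤ (N : ℝ) ^ ((1 - ε / 4) + α * ((1 - δ) * (1 - c))) := by
            refine Real.rpow_le_rpow_of_exponent_le h6 ?_
            have e1 : α * ((1 - δ) * (1 - c)) = α - α * c - α * δ * (1 - c) := by ring
            have e2 : α * c ≤ 1 * c := mul_le_mul_of_nonneg_right ha1.le hc0
            have e3 : α * δ * (1 - c) ≤ 1 * δ * 1 := by
              apply mul_le_mul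
              · exact mul_le_mul_of_nonneg_right ha1.le hd0.le
              · linarith
              · linarith
              · linarith
            rw [e1]
            linarith
        _ = (N : ℝ) ^ (1 - ε / 4) * (N : ℝ) ^ (α * ((1 - δ) * (1 - c))) := by
            rw [Real.rpow_add h6']
        _ ≤ (N : ℝ) ^ (1 - ε / 4) *
            ((Pool.Agent.helper86.dyadicPrimes ((N : ℝ) ^ α)).card : ℝ) ^ (1 - c) := by gcongr
    · intro q hq
      rw [Pool.Agent.helper86.mem_dyadicPrimes] at hq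
      obtain ⟨-, hq1, hq2⟩ := hq
      refine ⟨Nat.ceil_le.2 hq1, ?_⟩
      have h11 : (q : ℝ) < ((2 * X : ℕ) : ℝ) := by
        push_cast
        linarith
      exact_mod_cast h11
  exact eventually_atTop.1 hev

theorem PR2_b (h : Max 0) : SumF := by
  intro α ha0 ha1 ε hε
  obtain ⟨N₀, hN⟩ := h α ha0 ha1 (ε / 2) (by linarith)
  have hev : ∀ᶠ N : ℕ in atTop, ∀ Q : Finset ℕ, (∀ q ∈ Q, 1 ≤ q ∧ (q : ℝ) ≤ (N : ℝ) ^ α) →
      ∀ a : ℕ → ℤ, (N : ℝ) ^ (-ε) * ∑ q ∈ Q, (N : ℝ) / q ≤ cov Q a N := by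
    filter_upwards [PR2_log (show (0 : ℝ) < ε / 2 by linarith), eventually_ge_atTop N₀,
      eventually_ge_atTop 1] with N h1 h4 h5 Q hQ a
    have h6 : (1 : ℝ) ≤ N := by exact_mod_cast h5
    have h6' : (0 : ℝ) < N := by linarith
    have hlog : ∀ q ∈ Q, Nat.log 2 q ∈ Finset.range (Nat.log 2 N + 1) := by
      intro q hq
      have h7 : (q : ℝ) ≤ N := by
        calc (q : ℝ) ≤ (N : ℝ) ^ α := (hQ q hq).2
          _ ≤ (N : ℝ) ^ (1 : ℝ) := Real.rpow_le_rpow_of_exponent_le h6 ha1.le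
          _ = N := Real.rpow_one _
      have h8 : q ≤ N := by exact_mod_cast h7
      have h9 : Nat.log 2 q ≤ Nat.log 2 N := Nat.log_mono_right h8
      rw [Finset.mem_range]
      omega
    have hsum : ∑ q ∈ Q, (N : ℝ) / q =
        ∑ i ∈ Finset.range (Nat.log 2 N + 1), ∑ q ∈ Q.filter (fun q => Nat.log 2 q = i),
          (N : ℝ) / q := (Finset.sum_fiberwise_of_maps_to hlog _).symm
    have hblock : ∀ i ∈ Finset.range (Nat.log 2 N + 1),
        ∑ q ∈ Q.filter (fun q => Nat.log 2 q = i), (N : ℝ) / q ≤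
          (N : ℝ) ^ (ε / 2) * cov Q a N := by
      intro i _
      have hmem : ∀ q ∈ Q.filter (fun q => Nat.log 2 q = i), 2 ^ i ≤ q ∧ q < 2 * 2 ^ i := by
        intro q hq
        rw [Finset.mem_filter] at hq
        obtain ⟨hq1, hq2⟩ := hq
        have hq3 : q ≠ 0 := by
          have := (hQ q hq1).1
          omega
        refine ⟨?_, ?_⟩
        · rw [← hq2]
          exact Nat.pow_log_le_self 2 hq3
        · have := Nat.lt_pow_succ_log_self (b := 2) (by norm_num) q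
          rw [hq2] at this
          rw [pow_succ] at this
          omega
      rcases (Q.filter (fun q => Nat.log 2 q = i)).eq_empty_or_nonempty with he | ⟨q₀, hq₀⟩
      · rw [he, Finset.sum_empty]
        positivity
      · have hX1 : ((2 ^ i : ℕ) : ℝ) ≤ (N : ℝ) ^ α := by
          have h7 := (hmem q₀ hq₀).1
          have h8 : ((2 ^ i : ℕ) : ℝ) ≤ q₀ := by exact_mod_cast h7
          exact h8.trans (hQ q₀ (Finset.mem_filter.1 hq₀).1).2
        have h9 := hN N h4 (2 ^ i) Nat.one_le_two_pow hX1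
          (Q.filter (fun q => Nat.log 2 q = i)) hmem a
        have hc : cov ((Q.filter (fun q => Nat.log 2 q = i) : Finset ℕ) : Set ℕ) a N ≤
            cov (Q : Set ℕ) a N := by
          refine PR2_mono _ _ ?_ a N
          intro q hq
          exact (Finset.mem_filter.1 (Finset.mem_coe.1 hq)).1
        have hc' : (cov ((Q.filter (fun q => Nat.log 2 q = i) : Finset ℕ) : Set ℕ) a N : ℝ) ≤
            cov (Q : Set ℕ) a N := by exact_mod_cast hc
        rw [sub_zero, Real.rpow_one] at h9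
        have h10 : ∑ q ∈ Q.filter (fun q => Nat.log 2 q = i), (N : ℝ) / q ≤
            ∑ q ∈ Q.filter (fun q => Nat.log 2 q = i), (N : ℝ) / ((2 ^ i : ℕ) : ℝ) := by
          refine Finset.sum_le_sum fun q hq => ?_
          have h11 : ((2 ^ i : ℕ) : ℝ) ≤ q := by exact_mod_cast (hmem q hq).1
          have h12 : (0 : ℝ) < ((2 ^ i : ℕ) : ℝ) := by positivity
          exact div_le_div_of_nonneg_left h6'.le h12 h11
        rw [Finset.sum_const, nsmul_eq_mul] at h10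
        refine h10.trans ?_
        calc ((Q.filter (fun q => Nat.log 2 q = i)).card : ℝ) * ((N : ℝ) / ((2 ^ i : ℕ) : ℝ))
            = (N : ℝ) ^ (ε / 2) * ((N : ℝ) ^ (1 - ε / 2) *
                ((Q.filter (fun q => Nat.log 2 q = i)).card : ℝ) / ((2 ^ i : ℕ) : ℝ)) := by
              have h13 : (N : ℝ) ^ (ε / 2) * (N : ℝ) ^ (1 - ε / 2) = N := by
                rw [← Real.rpow_add h6']
                have : ε / 2 + (1 - ε / 2) = 1 := by ring
                rw [this, Real.rpow_one]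
              calc _ = ((Q.filter (fun q => Nat.log 2 q = i)).card : ℝ) *
                    (((N : ℝ) ^ (ε / 2) * (N : ℝ) ^ (1 - ε / 2)) / ((2 ^ i : ℕ) : ℝ)) := by
                    rw [h13]
                _ = _ := by ring
          _ ≤ (N : ℝ) ^ (ε / 2) * cov (Q : Set ℕ) a N := by
              refine mul_le_mul_of_nonneg_left (h9.trans hc') (by positivity)
    rw [hsum]
    have h14 := Finset.sum_le_sum hblock
    rw [Finset.sum_const, nsmul_eq_mul, Finset.card_range] at h14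
    calc (N : ℝ) ^ (-ε) * ∑ i ∈ Finset.range (Nat.log 2 N + 1),
          ∑ q ∈ Q.filter (fun q => Nat.log 2 q = i), (N : ℝ) / q
        ≤ (N : ℝ) ^ (-ε) * (((Nat.log 2 N + 1 : ℕ) : ℝ) *
            ((N : ℝ) ^ (ε / 2) * cov (Q : Set ℕ) a N)) :=
          mul_le_mul_of_nonneg_left h14 (by positivity)
      _ ≤ (N : ℝ) ^ (-ε) * ((N : ℝ) ^ (ε / 2) *
            ((N : ℝ) ^ (ε / 2) * cov (Q : Set ℕ) a N)) := by
          gcongr
      _ = ((N : ℝ) ^ (-ε) * ((N : ℝ) ^ (ε / 2) * (N : ℝ) ^ (ε / 2))) *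
            cov (Q : Set ℕ) a N := by ring
      _ = cov (Q : Set ℕ) a N := by
          rw [← Real.rpow_add h6', ← Real.rpow_add h6']
          have : -ε + (ε / 2 + ε / 2) = 0 := by ring
          rw [this, Real.rpow_zero, one_mul]
  exact eventually_atTop.1 hev

theorem PR2_c (h : SumF) : Q1 := by
  intro α ha0 ha1 ε hε
  have ha0' : 0 < α := by linarith
  set δ : ℝ := min (ε / 4) (1 / 2) with hδ
  have hd0 : 0 < δ := by rw [hδ]; exact lt_min (by linarith) (by norm_num)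
  have hd1 : δ < 1 := lt_of_le_of_lt (min_le_right _ _) (by norm_num)
  have hd2 : δ ≤ ε / 4 := min_le_left _ _
  obtain ⟨N₀, hN⟩ := h ((1 + α) / 2) (by linarith) (by linarith) (ε / 4) (by linarith)
  have hev : ∀ᶠ N : ℕ in atTop, ∀ a : ℕ → ℤ, (N : ℝ) ^ (1 - ε) ≤ cov (dyP α N) a N := by
    filter_upwards [PR2_primes ha0' hd0 hd1, PR2_ev 2 (show (0 : ℝ) < (1 - α) / 2 by linarith),
      PR2_ev 2 (show (0 : ℝ) < ε / 2 by linarith), eventually_ge_atTop N₀,
      eventually_ge_atTop 1] with N h1 h2 h3 h4 h5 a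
    have h6 : (1 : ℝ) ≤ N := by exact_mod_cast h5
    have h6' : (0 : ℝ) < N := by linarith
    have h7 : (1 : ℝ) ≤ (N : ℝ) ^ α := Real.one_le_rpow h6 ha0'.le
    have h7' : (0 : ℝ) < (N : ℝ) ^ α := by linarith
    have hX6 : 2 * (N : ℝ) ^ α ≤ (N : ℝ) ^ ((1 + α) / 2) := by
      have h8 : (N : ℝ) ^ ((1 + α) / 2) = (N : ℝ) ^ ((1 - α) / 2) * (N : ℝ) ^ α := by
        rw [← Real.rpow_add h6']
        congr 1
        ring
      rw [h8]
      gcongr
    have h9 := hN N h4 (Pool.Agent.helper86.dyadicPrimes ((N : ℝ) ^ α)) ?_ a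
    · rw [PR2_coe] at h9
      refine le_trans ?_ h9
      have h10 : ((Pool.Agent.helper86.dyadicPrimes ((N : ℝ) ^ α)).card : ℝ) *
          ((N : ℝ) / (2 * (N : ℝ) ^ α)) ≤
          ∑ q ∈ Pool.Agent.helper86.dyadicPrimes ((N : ℝ) ^ α), (N : ℝ) / q := by
        rw [← nsmul_eq_mul, ← Finset.sum_const]
        refine Finset.sum_le_sum fun q hq => ?_
        rw [Pool.Agent.helper86.mem_dyadicPrimes] at hq
        obtain ⟨-, hq1, hq2⟩ := hq
        exact div_le_div_of_nonneg_left h6'.le (by linarith) hq2.le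
      rw [← Real.rpow_mul (by positivity)] at h1
      calc (N : ℝ) ^ (1 - ε) = (N : ℝ) ^ (-(ε / 4)) * ((N : ℝ) ^ (1 - ε + ε / 4)) := by
            rw [← Real.rpow_add h6']
            congr 1
            ring
        _ ≤ (N : ℝ) ^ (-(ε / 4)) *
            (((N : ℝ) ^ (α * (1 - δ))) * ((N : ℝ) / (2 * (N : ℝ) ^ α))) := by
            refine mul_le_mul_of_nonneg_left ?_ (by positivity)
            rw [mul_div_assoc', le_div_iff₀ (by positivity)]
            calc (N : ℝ) ^ (1 - ε + ε / 4) * (2 * (N : ℝ) ^ α)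
                = 2 * ((N : ℝ) ^ (1 - ε + ε / 4) * (N : ℝ) ^ α) := by ring
              _ ≤ (N : ℝ) ^ (ε / 2) * ((N : ℝ) ^ (1 - ε + ε / 4) * (N : ℝ) ^ α) := by gcongr
              _ = (N : ℝ) ^ (ε / 2 + ((1 - ε + ε / 4) + α)) := by
                  rw [← Real.rpow_add h6', ← Real.rpow_add h6']
              _ ≤ (N : ℝ) ^ (α * (1 - δ) + 1) := by
                  refine Real.rpow_le_rpow_of_exponent_le h6 ?_
                  have e2 : α * δ ≤ 1 * δ := mul_le_mul_of_nonneg_right ha1.le hd0.le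
                  nlinarith
              _ = (N : ℝ) ^ (α * (1 - δ)) * N := by rw [Real.rpow_add h6', Real.rpow_one]
        _ ≤ (N : ℝ) ^ (-(ε / 4)) *
            (((Pool.Agent.helper86.dyadicPrimes ((N : ℝ) ^ α)).card : ℝ) *
              ((N : ℝ) / (2 * (N : ℝ) ^ α))) := by gcongr
        _ ≤ _ := mul_le_mul_of_nonneg_left h10 (by positivity)
    · intro q hq
      rw [Pool.Agent.helper86.mem_dyadicPrimes] at hq
      obtain ⟨hq0, hq1, hq2⟩ := hq
      exact ⟨hq0.one_lt.le, (hq2.le).trans hX6⟩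
  exact eventually_atTop.1 hev

theorem PR2_d (c : ℝ) (h : WK c) : FW c := by
  intro ε hε
  obtain ⟨δ, hδ, hδε, M₀, hM⟩ := h ε hε
  refine ⟨δ, hδ, hδε, M₀, fun M hMM B hB => ?_⟩
  have hcard : ((Finset.Icc 1 M).image (fun n : ℕ => (n : ℤ))).card = M := by
    rw [Finset.card_image_of_injective _ Nat.cast_injective, Nat.card_Icc, Nat.add_sub_cancel]
  have h1 := hM ((Finset.Icc 1 M).image (fun n : ℕ => (n : ℤ))) (by rw [hcard]; exact hMM) B ?_
  · rwa [hcard] at h1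
  · intro d hd
    rw [Finset.mem_image] at hd
    obtain ⟨q, hq, rfl⟩ := hd
    have h2 := Finset.mem_Icc.1 hq
    obtain ⟨b, hb⟩ := hB q h2.1 h2.2
    refine ⟨b, fun k hk => hb k ?_⟩
    rwa [hcard] at hk

theorem PR2 : PR2_stmt := ⟨PR2_a, PR2_b, PR2_c, PR2_d⟩

end Pool.Agent.BK
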